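import Pool.Agent.J6H24.HFC.PetC

/-!
# `1/2`-flow-pairs: graphs without induced paths with eight vertices (MP_e59a69_co)

Let `G` be a bridgeless multigraph which has no induced path with eight vertices.  Then `G` has a
`1/2`-flow-pair, and at every vertex with exactly three edges (loops not counted) every admissible
choice of the values extends to a `1/2`-flow-pair of `G`.  The order, the degrees, the connectivity
and the width parameters of `G` are arbitrary, and `G` need not have a nowhere-zero 4-flow.

Proof.  Let `H` be obtained from `G` by contraction of disjoint connected vertex sets, such that the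
conclusion fails for `H` and `H` has as few edges (apart from loops) as possible.  Then `H` has no
induced path with eight vertices.  By the starting theorem `InducedPathEight` on MP_e6539c_co, `H` has
a nowhere-zero flow over the group of order four, and then Hoffman's theorem gives all admissible
values at a vertex of degree three (starting library `TH499/NF`), or the vertices of `H` have ten
classes which form a Petersen graph, with exactly three edges leaving each class.  In this case
`1/2`-flow-pairs of the two contractions given by a cut with three edges can be glued, since all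
admissible values at a vertex of degree three extend; so, by minimality, a component of `H` is a
Petersen graph (with loops), and all admissible values at a vertex of the Petersen graph extend.
-/

set_option autoImplicit false

namespace Pool.Agent.Results.MP_e59a69_co.InducedPathEight

open Finset Pool.Agent.H160R2.HF

/-- The edge `e` joins the vertices `x` and `y`. -/
def Joins {V E : Type} (G : OrGraph V E) (e : E) (x y : V) : Prop :=
  (G.t e = x ∧ G.h e = y) ∨ (G.t e = y ∧ G.h e = x)

/-- `G` has an induced path with `n` vertices: `n` different vertices `p 0, ..., p (n - 1)` such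
that, for `i < j`, an edge joins `p i` and `p j` if and only if `j = i + 1`. -/
def HasInducedPath {V E : Type} (G : OrGraph V E) (n : ℕ) : Prop :=
  ∃ p : Fin n → V, Function.Injective p ∧
    ∀ i j : Fin n, i < j → ((∃ e, Joins G e (p i) (p j)) ↔ i.val + 1 = j.val)

/-- `α e, β e` are admissible values of a `1/2`-flow-pair at the edges `e` of `w` (without loops):
the two sums of the outgoing values are zero, `|α e| ≤ 1`, `|β e| ≤ 3`, and `|β e| ≥ 2` if
`α e = 0`. -/
def Admissible {V E : Type} [Fintype V] [Fintype E] [DecidableEq V] [DecidableEq E]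
    (G : OrGraph V E) (w : V) (α β : E → ℤ) : Prop :=
  ∑ e ∈ G.cut {w}, (if G.t e = w then α e else - α e) = 0 ∧
  ∑ e ∈ G.cut {w}, (if G.t e = w then β e else - β e) = 0 ∧
  ∀ e ∈ G.cut {w}, |α e| ≤ 1 ∧ |β e| ≤ 3 ∧ (α e = 0 → 2 ≤ |β e|)

/-- Let `G` be a bridgeless multigraph which has no induced path with eight vertices.  Then `G` has a
`1/2`-flow-pair, and all admissible values at a vertex with three edges extend. -/
theorem result (V E : Type) [Fintype V] [DecidableEq V] [Fintype E] [DecidableEq E]
    (G : OrGraph V E) (hB : G.Bridgeless) (hP : ¬ HasInducedPath G 8) :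
    (∃ φ₂ φ₄ : E → ℤ, G.IsHalfFlowPair φ₂ φ₄) ∧
      ∀ w, (G.cut {w}).card = 3 → ∀ α β : E → ℤ, Admissible G w α β →
        ∃ φ₂ φ₄ : E → ℤ, G.IsHalfFlowPair φ₂ φ₄ ∧ ∀ e ∈ G.cut {w}, φ₂ e = α e ∧ φ₄ e = β e := by
  classical
  obtain ⟨h1, h2⟩ := Pool.Agent.J6H24.HFC.pp_main
    (fun s t => ¬ ∃ p : Fin 8 → V, Function.Injective p ∧ ∀ i j : Fin 8, i < j →
      ((∃ e, (s e = p i ∧ t e = p j) ∨ (s e = p j ∧ t e = p i)) ↔ i.val + 1 = j.val))
    (fun s t π hπ hp => by
      rintro ⟨q, hq, hq'⟩
      obtain ⟨p, hp1, hp2⟩ := Pool.Agent.R140.PK.lift_path hπ (by omega) q hq (fun i j hij => by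
        rw [← hq' i j hij]
        constructor
        · rintro ⟨_, e, _, he⟩
          exact ⟨e, he⟩
        · rintro ⟨e, he⟩
          exact ⟨fun h => absurd (hq h) (ne_of_gt hij), e, mem_univ e, he⟩)
      refine hp ⟨p, hp1, fun i j hij => ?_⟩
      rw [← hp2 i j hij]
      constructor
      · rintro ⟨e, he⟩
        exact ⟨fun h => absurd (hp1 h) (ne_of_gt hij), e, mem_univ e, he⟩
      · rintro ⟨_, e, _, he⟩
        exact ⟨e, he⟩)
    (fun s t hn hp => Pool.Agent.R140.PK.main8 s t hn hp)
    (Pool.Agent.R129.Hfp.n1_of (G.cut_card_ne_one hB)) hP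
  exact ⟨h1, fun w hw α β ⟨a, b, c⟩ => h2 w hw α β a b c⟩

end Pool.Agent.Results.MP_e59a69_co.InducedPathEight
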