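import Pool.Agent.R129.Hfp.Ears
import Pool.Agent.R129.Hfp.Main
import Pool.Agent.R769.MN.Mat

/-!
# `1/2`-flow-pairs: graphs with matching number at most eight (MP_e59a69_co)

Let `G` be a bridgeless multigraph in which every matching has at most eight edges.  Then `G` has a
`1/2`-flow-pair, and at every vertex with exactly three edges (loops not counted) every admissible
choice of the values extends to a `1/2`-flow-pair of `G`.  The order and the degrees are arbitrary,
and there may be edge cuts with two or three edges.

Proof.  The class is closed under identification of vertices.  By the starting theorem `match8`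
(`R769/MN/Mat.lean`) its bridgeless members have a nowhere-zero flow over the group of order four or
ten classes of vertices which form a Petersen graph: a smallest exception has no circuits with at most
four edges, no vertices with one or two neighbours and at least 18 vertices of odd degree, and the
Tutte-Berge formula gives a matching with nine edges.  The induction of `R129/Hfp/Main.lean` gives the
`1/2`-flow-pairs.
-/

set_option autoImplicit false

namespace Pool.Agent.Results.MP_e59a69_co.MatchingNumberEight

open Finset Pool.Agent.H160R2.HF Pool.Agent.R129.Hfp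

/-- `M` is a matching: its edges are not loops and no two of them have a common end. -/
def IsMatching {V E : Type} (G : OrGraph V E) (M : Finset E) : Prop :=
  (∀ e ∈ M, G.t e ≠ G.h e) ∧ ∀ e ∈ M, ∀ e' ∈ M, e ≠ e' →
    G.t e ≠ G.t e' ∧ G.t e ≠ G.h e' ∧ G.h e ≠ G.t e' ∧ G.h e ≠ G.h e'

/-- `α e, β e` are admissible values of a `1/2`-flow-pair at the edges `e` of `w` (without loops):
the two sums of the outgoing values are zero, `|α e| ≤ 1`, `|β e| ≤ 3`, and `|β e| ≥ 2` if
`α e = 0`. -/
def Admissible {V E : Type} [Fintype V] [Fintype E] [DecidableEq V] [DecidableEq E]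
    (G : OrGraph V E) (w : V) (α β : E → ℤ) : Prop :=
  ∑ e ∈ G.cut {w}, (if G.t e = w then α e else - α e) = 0 ∧
  ∑ e ∈ G.cut {w}, (if G.t e = w then β e else - β e) = 0 ∧
  ∀ e ∈ G.cut {w}, |α e| ≤ 1 ∧ |β e| ≤ 3 ∧ (α e = 0 → 2 ≤ |β e|)

/-- Let `G` be a bridgeless multigraph in which every matching has at most eight edges.  Then `G` has
a `1/2`-flow-pair, and all admissible values at a vertex with three edges extend. -/
theorem result (V E : Type) [Fintype V] [DecidableEq V] [Fintype E] [DecidableEq E]
    (G : OrGraph V E) (hB : G.Bridgeless) (hM : ∀ M : Finset E, IsMatching G M → M.card ≤ 8) :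
    (∃ φ₂ φ₄ : E → ℤ, G.IsHalfFlowPair φ₂ φ₄) ∧
      ∀ w, (G.cut {w}).card = 3 → ∀ α β : E → ℤ, Admissible G w α β →
        ∃ φ₂ φ₄ : E → ℤ, G.IsHalfFlowPair φ₂ φ₄ ∧ ∀ e ∈ G.cut {w}, φ₂ e = α e ∧ φ₄ e = β e := by
  obtain ⟨h1, h2⟩ := main
    (fun G' => ∀ M : Finset E, Pool.Agent.R769.MN.IsMat G'.t G'.h M → M.card ≤ 8)
    (fun G' ρ h M hM => h M (hM.of_map ρ))
    (fun G' h hb => by
      rcases Pool.Agent.R769.MN.match8 G'.t G'.h univ (n1_of hb) (fun M _ hM => h M hM) with h | h
      · exact Or.inl (nzK_of h)
      · exact Or.inr h) _ G rfl hM (G.cut_card_ne_one hB)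
  exact ⟨h1, fun w hw α β ⟨a, b, c⟩ => h2 w hw α β a b c⟩

end Pool.Agent.Results.MP_e59a69_co.MatchingNumberEight
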