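import Pool.Agent.J6H24.OF.Avg

/-!
# `1/2`-flow-pairs and 2-factors with at most four odd circuits

`G : OrGraph V E` is a finite multigraph with a fixed orientation; `G.Cubic`, `G.IsTwoFactor F`,
`G.cut X` (the edges with exactly one end in `X`), `G.oddCount F` (the number of odd circuits of the
2-factor `F`), `G.HasCycleIn X` (the subgraph induced by `X` contains a circuit), `G.Bridgeless` and
`G.IsHalfFlowPair` are the definitions of the starting files, and so are `CyclicallyEdgeConnected`
and `allOdd G`, the set of the vertex sets of the odd circuits of all the 2-factors of `G`.

Proof.  Let `U` contain one vertex of each of the four odd circuits of `F`, let `B` be a matching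
inside `F` which misses exactly `U`, and let `M` be the complement of `F`.  The components of
`M ∪ B` are even circuits and two paths with the ends in `U`.  Orient the circuits and the paths; if
Hoffman's condition for the corresponding `1/2`-flow-pair fails for a vertex set `X`, then `δ(X)` has
at most eight edges, those in `F` are at most two and in `B`, and `X` separates the two sources in
`U` from the two sinks.  If this happens for two orientations with different partitions of `U`, for
the sets `X` and `Y`, then each of the four corners of `X, Y` contains one vertex of `U` and has an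
odd boundary.  By submodularity one corner of each pair of opposite corners has at most seven boundary
edges, so it contains no circuit and has at most five vertices.  But `X`, `Y` and their complements
contain one of the odd circuits, which have at least nine vertices, and two more vertices.
-/

set_option autoImplicit false
set_option linter.all false

namespace Pool.Agent.Results.MP_e59a69_co.OddnessFour

open Pool.Agent.H160R2.HF Pool.Agent.W965.TFP Pool.Agent.TH583.FO Pool.Agent.J6H24.OF

/-- Let `G` be a cubic graph such that every odd edge cut with circuits on both sides has at least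
nine edges (there is no condition on the even cuts).

1. Every 2-factor `F` of `G` with at most four odd circuits is the support of `φ₂` for a
   `1/2`-flow-pair `(φ₂, φ₄)` of `G`.
2. Let `G` be bridgeless. If there are nonnegative weights `y` of vertex sets such that the odd circuits
   of every 2-factor with more than four odd circuits have total weight at least `1`, while the sum of
   `y(S) (d(S) - 3) / (3 (d(S) - 1))` over the vertex sets `S` of the odd circuits of all the
   2-factors of `G` is less than `1`, where `d(S)` is the number of edges leaving `S`, then `G` has a
   `1/2`-flow-pair.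
3. In particular a bridgeless `G` has a `1/2`-flow-pair if at most `18` vertex sets are vertex sets of
   odd circuits of 2-factors.

All this holds for the cyclically 8-edge-connected cubic graphs `G`. -/
theorem result (V E : Type) [Fintype V] [Fintype E] [DecidableEq V] [DecidableEq E]
    (G : OrGraph V E) (hc : G.Cubic)
    (h : OddCyclic G 9 ∨ CyclicallyEdgeConnected G 8) :
    (∀ F : Finset E, G.IsTwoFactor F → G.oddCount F ≤ 4 →
      ∃ φ₂ φ₄ : E → ℤ, G.IsHalfFlowPair φ₂ φ₄ ∧ ∀ e, φ₂ e ≠ 0 ↔ e ∈ F) ∧
    (G.Bridgeless → ∀ y : Finset V → ℝ, (∀ S, 0 ≤ y S) →
      (∀ F : Finset E, G.IsTwoFactor F → 4 < G.oddCount F → 1 ≤ ∑ S ∈ oddSets G F, y S) →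
      ∑ S ∈ allOdd G, y S * ((((G.cut S).card : ℝ) - 3) / (3 * ((G.cut S).card - 1))) < 1 →
      ∃ φ₂ φ₄ : E → ℤ, G.IsHalfFlowPair φ₂ φ₄) ∧
    (G.Bridgeless → (allOdd G).card ≤ 18 → ∃ φ₂ φ₄ : E → ℤ, G.IsHalfFlowPair φ₂ φ₄) := by
  have h9 : OddCyclic G 9 := by
    rcases h with h | h
    · exact h
    · intro X h1 h2 h3
      have h4 := h X h1 h2
      rw [Nat.odd_iff] at h3
      omega
  exact ⟨fun F hF ht => four G hc h9 F hF ht, fun hb y hy h1 h2 => main G hc hb h9 y hy h1 h2,
    fun hb hcard => count G hc hb h9 hcard⟩

end Pool.Agent.Results.MP_e59a69_co.OddnessFour
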