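import Pool.Agent.R129.Hfp.Ears
import Pool.Agent.R129.Hfp.Main
import Pool.Agent.N410.DC.Part

/-!
# `1/2`-flow-pairs: partitions with 18 odd classes (MP_e59a69_co)

Let `G` be a bridgeless multigraph such that every partition of the vertex set into `k` classes, at
least 18 of which have an odd number of boundary edges, has at least `2 (k - 1)` crossing edges.  Then
`G` has a `1/2`-flow-pair, and at every vertex with exactly three edges (loops not counted) every
admissible choice of the values extends to a `1/2`-flow-pair of `G`.

If all partitions have this property then `G` has two disjoint spanning trees (Tutte, Nash-Williams)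
and a nowhere-zero 4-flow (Jaeger).  Here the condition is only needed for partitions with at least 18
odd classes: graphs with at most 16 vertices of odd degree, simple graphs with `n ≥ 21` vertices and
at least `(n - 17 choose 2) + 34` edges, and many others are included; such graphs need not have a
nowhere-zero 4-flow.  More generally the condition is only needed for partitions without crossing
edges in the union `F` of a chain of circuits or ears with at most four new edges and of doubly
connected pieces.

Proof.  The class is closed under identification of vertices, and by the starting library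
(`N410/DC/Part.lean`) its bridgeless members have a nowhere-zero 4-flow or ten classes of vertices
which form a Petersen graph.  The induction of `R129/Hfp/Main.lean` gives the `1/2`-flow-pairs: in the
first case every admissible choice of values at a vertex of degree three extends by Hoffman's theorem;
in the second case the flows of the ten smaller graphs, in which the vertices outside of one class are
identified, are glued along a `1/2`-flow-pair of the Petersen graph.
-/

set_option autoImplicit false

namespace Pool.Agent.Results.MP_e59a69_co.PartitionsEighteen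

open Finset Pool.Agent.H160R2.HF Pool.Agent.R129.Hfp

/-- The edges with exactly one end in `X`. -/
def boundary {V E : Type} [DecidableEq V] [Fintype E] (G : OrGraph V E) (X : Finset V) : Finset E :=
  univ.filter (fun e => ¬ (G.t e ∈ X ↔ G.h e ∈ X))

/-- The union of the sets `C j` with `j < i`. -/
def earlier {E : Type} [DecidableEq E] {m : ℕ} (C : Fin m → Finset E) (i : Fin m) : Finset E :=
  (univ.filter (fun j => j < i)).biUnion C

/-- `H` can be added to the chain after `F`: either (short) `H` has at most four edges outside `F`
and no bridge modulo `F`: no set `Y` of vertices without boundary edges in `F` has exactly one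
boundary edge in `H`; or (doubly connected) `H` contains two disjoint sets each of which connects,
modulo `F`, whatever `H` connects: every set `Y` of vertices without boundary edges in `F` and with
a boundary edge in `H` has boundary edges in both sets. -/
def Adds {V E : Type} [DecidableEq V] [Fintype E] [DecidableEq E] (G : OrGraph V E)
    (F H : Finset E) : Prop :=
  ((H \ F).card ≤ 4 ∧ ∀ Y : Finset V, Disjoint (boundary G Y) F →
    (boundary G Y ∩ H).card ≠ 1) ∨
  ∃ T₁ T₂ : Finset E, T₁ ⊆ H ∧ T₂ ⊆ H ∧ Disjoint T₁ T₂ ∧ ∀ Y : Finset V,
    Disjoint (boundary G Y) F → ¬ Disjoint (boundary G Y) H →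
      ¬ Disjoint (boundary G Y) T₁ ∧ ¬ Disjoint (boundary G Y) T₂

/-- The `i`-th class of the partition `p`. -/
def part {V : Type} [Fintype V] {k : ℕ} (p : V → Fin k) (i : Fin k) : Finset V :=
  univ.filter (fun v => p v = i)

/-- For some chain of sets of edges (for instance the empty chain) every partition of the vertex set
into `k` classes without crossing edges in the chain, at least 18 of which have an odd number of
boundary edges, has at least `2 (k - 1)` crossing edges. -/
def ManyCrossing {V E : Type} [Fintype V] [DecidableEq V] [Fintype E] [DecidableEq E]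
    (G : OrGraph V E) : Prop :=
  ∃ (m : ℕ) (C : Fin m → Finset E), (∀ i, Adds G (earlier C i) (C i)) ∧
    ∀ (k : ℕ) (p : V → Fin k), Function.Surjective p →
      (∀ e ∈ univ.biUnion C, p (G.t e) = p (G.h e)) →
      18 ≤ (univ.filter (fun i => Odd (boundary G (part p i)).card)).card →
      2 * k ≤ (univ.filter (fun e => p (G.t e) ≠ p (G.h e))).card + 2

/-- `α e, β e` are admissible values of a `1/2`-flow-pair at the edges `e` of `w` (without loops):
the two sums of the outgoing values are zero, `|α e| ≤ 1`, `|β e| ≤ 3`, and `|β e| ≥ 2` if
`α e = 0`. -/
def Admissible {V E : Type} [Fintype V] [Fintype E] [DecidableEq V] [DecidableEq E]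
    (G : OrGraph V E) (w : V) (α β : E → ℤ) : Prop :=
  ∑ e ∈ G.cut {w}, (if G.t e = w then α e else - α e) = 0 ∧
  ∑ e ∈ G.cut {w}, (if G.t e = w then β e else - β e) = 0 ∧
  ∀ e ∈ G.cut {w}, |α e| ≤ 1 ∧ |β e| ≤ 3 ∧ (α e = 0 → 2 ≤ |β e|)

/-- Let `G` be a bridgeless multigraph which satisfies the condition above.  Then `G` has a
`1/2`-flow-pair, and all admissible values at a vertex with three edges extend. -/
theorem result (V E : Type) [Fintype V] [DecidableEq V] [Fintype E] [DecidableEq E]
    (G : OrGraph V E) (hB : G.Bridgeless) (h : ManyCrossing G) :
    (∃ φ₂ φ₄ : E → ℤ, G.IsHalfFlowPair φ₂ φ₄) ∧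
      ∀ w, (G.cut {w}).card = 3 → ∀ α β : E → ℤ, Admissible G w α β →
        ∃ φ₂ φ₄ : E → ℤ, G.IsHalfFlowPair φ₂ φ₄ ∧ ∀ e ∈ G.cut {w}, φ₂ e = α e ∧ φ₄ e = β e := by
  have hC : N410.DC.GCl N410.DC.PartN G.t G.h := by
    obtain ⟨m, C, hC, hO⟩ := h
    exact N410.DC.GCl.of_part hC hO
  obtain ⟨h1, h2⟩ := main (fun G' => N410.DC.GCl N410.DC.PartN G'.t G'.h)
    (fun G' ρ h => N410.DC.GCl.map N410.DC.inh_part h ρ)
    (fun G' h hb => by
      rcases N410.DC.GCl.flow N410.DC.inh_part h (n1_of hb) with h | h
      · exact Or.inl (nzK_of h)
      · exact Or.inr h) _ G rfl hC (G.cut_card_ne_one hB)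
  exact ⟨h1, fun w hw α β ⟨a, b, c⟩ => h2 w hw α β a b c⟩

end Pool.Agent.Results.MP_e59a69_co.PartitionsEighteen
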